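import Mathlib
import Pool.Agent.H552R3.SymPred
import Pool.Agent.H552R3.Tsen.Tower

/-! Index bound over function fields: a curve times elliptic curves. -/

set_option autoImplicit false
set_option linter.all false

open scoped TensorProduct

namespace Pool.Agent.Results.MP_43d240_ag.CurveTimesElliptic

open Pool.Agent.Helper18.Br Pool.Agent.H552R3.SymBr Pool.Agent.H552R3.SymPred Pool.Agent.H552R3.Tsen

universe u

/-- Let `K` be an extension of an algebraically closed field `k`, let `n ≥ 1` and let `ζ ∈ K` be a primitive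
`n`-th root of unity. Let `L` be an intermediate field of transcendence degree at most `1` over `k`, and let
`(e_i, f_i)`, `i < r`, be pairs of nonzero elements of `K` such that `e_i, f_i` are algebraically dependent over
`k`, or satisfy a relation `c e_i + d f_i = 1` with `c, d ∈ L` nonzero. Then every class in the subgroup of `Br(K)`
generated by all symbols of degree `n` with entries in the group generated by `Lˣ`, the `e_i` and the `f_i` has
index dividing `n ^ r`. -/
theorem result {k K : Type u} [Field k] [IsAlgClosed k] [Field K] [Algebra k K] (n : ℕ) (hn : 0 < n)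
    (ζ : K) (hζ : IsPrimitiveRoot ζ n)
    (L : IntermediateField k K) (hL : Algebra.trdeg k L ≤ 1)
    (r : ℕ) (e f : Fin r → Kˣ)
    (hef : ∀ i, ¬ AlgebraicIndependent k ![(e i : K), (f i : K)] ∨
      (∃ c ∈ L, ∃ d ∈ L, c ≠ 0 ∧ d ≠ 0 ∧ c * e i + d * f i = 1))
    (G : Subgroup Kˣ) (hG : G = Subgroup.closure ({x : Kˣ | (x : K) ∈ L} ∪ Set.range e ∪ Set.range f))
    (α : BrauerGroup.{u, u} K)
    (hα : α ∈ Subgroup.closure {γ | ∃ x ∈ G, ∃ y ∈ G, IsSym n ζ x y γ}) :
    IndDvd α (n ^ r) := by
  -- the root of unity comes from `k`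
  obtain ⟨z, rfl⟩ : ∃ z : k, algebraMap k K z = ζ :=
    mem_range_of_alg ζ ⟨Polynomial.X ^ n - Polynomial.C 1, Polynomial.X_pow_sub_C_ne_zero hn 1, by
      simp [hζ.pow_eq_one]⟩
  have hz : IsPrimitiveRoot z n := hζ.of_map_of_injective (algebraMap k K).injective
  -- the subgroup `H = Lˣ`
  let H : Subgroup Kˣ :=
    { carrier := {x : Kˣ | (x : K) ∈ L}
      mul_mem' := fun {a b} ha hb => by
        change ((a * b : Kˣ) : K) ∈ L
        rw [Units.val_mul]; exact L.mul_mem ha hb
      one_mem' := L.one_mem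
      inv_mem' := fun {a} ha => by
        change ((a⁻¹ : Kˣ) : K) ∈ L
        rw [Units.val_inv_eq_inv_val]; exact L.inv_mem ha }
  have hneg : (-1 : Kˣ) ∈ H := by
    change ((-1 : Kˣ) : K) ∈ L
    rw [Units.val_neg, Units.val_one]
    exact L.neg_mem L.one_mem
  -- symbols of `L` are trivial
  have hdep : ∀ a ∈ H, ∀ b ∈ H, ¬ AlgebraicIndependent k ![(a : K), (b : K)] := by
    intro a ha b hb h
    have h1 : AlgebraicIndependent k ![(⟨a, ha⟩ : L), (⟨b, hb⟩ : L)] := by
      apply AlgebraicIndependent.of_comp L.val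
      convert h using 1
      funext i
      fin_cases i <;> rfl
    have h2 := h1.lift_cardinalMk_le_trdeg
    have h3 := h2.trans (Cardinal.lift_le.2 hL)
    simp at h3
  have hV : symSet hn (rootK K hz) H ⊆ (⊥ : Subgroup (BrauerGroup.{u, u} K)) := by
    rintro γ ⟨a, ha, b, hb, rfl⟩
    exact tsen hn hz a b (hdep a ha b hb)
  have hmain := main_index hn (rootK K hz) r ⊥ H hneg hV 1 one_pos ?_ e f ?_ α ?_
  · rwa [mul_one] at hmain
  · intro β hβ
    rw [Subgroup.mem_bot] at hβ
    subst hβ
    apply HasRep.indDvd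
    exact ⟨K, inferInstance, inferInstance, inferInstance, inferInstance, inferInstance, rfl, by
      rw [Module.finrank_self, one_pow]⟩
  · intro i
    rcases hef i with h | ⟨c, hc, d, hd, hc0, hd0, h⟩
    · exact ⟨1, H.one_mem, 1, H.one_mem, 1, Subgroup.one_mem _, by
        rw [tsen hn hz _ _ h, symCl_one_right, symCl_one_right, mul_one, mul_one]⟩
    · exact pairRel_of_linear hn (rootK K hz) _ H hV (e i) (f i) (Units.mk0 c hc0) (Units.mk0 d hd0) hc hd h
  · have hGH : G = H ⊔ Subgroup.closure (Set.range e ∪ Set.range f) := by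
      rw [hG, Set.union_assoc, Subgroup.closure_union]
      congr 1
      exact Subgroup.closure_eq H
    have hS : {γ | ∃ x ∈ G, ∃ y ∈ G, IsSym n (algebraMap k K z) x y γ} = symSet hn (rootK K hz) G := by
      ext γ
      constructor
      · rintro ⟨x, hx, y, hy, h⟩
        exact ⟨x, hx, y, hy, (isSym_iff hn (rootK K hz) x y γ).1 h⟩
      · rintro ⟨x, hx, y, hy, h⟩
        exact ⟨x, hx, y, hy, (isSym_iff hn (rootK K hz) x y γ).2 h⟩
    rw [hS, hGH] at hα
    exact (le_sup_right : _ ≤ (⊥ : Subgroup (BrauerGroup.{u, u} K)) ⊔ _) hα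

end Pool.Agent.Results.MP_43d240_ag.CurveTimesElliptic
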