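import Mathlib
import Pool.Agent.H552R3.SymPred

/-! A relative index bound: from `Br(F)` to symbols over an extension `K`. -/

set_option autoImplicit false
set_option linter.all false

open scoped TensorProduct

namespace Pool.Agent.Results.MP_43d240_ag.RelativeBound

open Pool.Agent.Helper18.Br Pool.Agent.H552R3.SymBr Pool.Agent.H552R3.SymPred

universe u

/-- Let `F ⊆ K` be fields, `ζ ∈ F` a primitive `n`-th root of unity, `U ≤ Br(F)` and `H ≤ Fˣ` subgroups
with `-1 ∈ H` and `{a,b} ∈ U` for `a, b ∈ H`, and suppose that every class in `U` has index dividing `N`.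
Let `(e_i, f_i)`, `i < r`, be pairs in `Kˣ` such that `{e_i, f_i}` lies in `{e_i, H} {f_i, H} res(U)`
(for instance `c e_i + d f_i = 1` with `c, d ∈ H`). Then every class in the subgroup of `Br(K)` generated by
`res(U)` and by all symbols with entries in the group generated by `H`, the `e_i` and the `f_i` has index
dividing `n ^ r * N`. -/
theorem result {F K : Type u} [Field F] [Field K] [Algebra F K] {n : ℕ} (hn : 0 < n) {ζ : F}
    (hζ : IsPrimitiveRoot ζ n)
    (U : Subgroup (BrauerGroup.{u, u} F)) (H : Subgroup Fˣ) (hneg : (-1 : Fˣ) ∈ H)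
    (hHU : ∀ a ∈ H, ∀ b ∈ H, ∀ c : BrauerGroup.{u, u} F, IsSym n ζ a b c → c ∈ U)
    (N : ℕ) (hN : 0 < N) (hU : ∀ β ∈ U, IndDvd β N)
    (r : ℕ) (e f : Fin r → Kˣ)
    (hef : ∀ i, (∃ a ∈ H, ∃ b ∈ H, ∃ β ∈ U, ∃ c c₁ c₂ : BrauerGroup.{u, u} K,
          IsSym n (algebraMap F K ζ) (e i) (f i) c ∧
          IsSym n (algebraMap F K ζ) (e i) (Units.map (algebraMap F K).toMonoidHom a) c₁ ∧
          IsSym n (algebraMap F K ζ) (f i) (Units.map (algebraMap F K).toMonoidHom b) c₂ ∧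
          c = c₁ * c₂ * res K β) ∨
        (∃ c ∈ H, ∃ d ∈ H, algebraMap F K (c : F) * e i + algebraMap F K (d : F) * f i = 1))
    (G : Subgroup Kˣ)
    (hG : G = H.map (Units.map (algebraMap F K).toMonoidHom) ⊔ Subgroup.closure (Set.range e ∪ Set.range f))
    (α : BrauerGroup.{u, u} K)
    (hα : α ∈ Subgroup.closure ({γ | ∃ β ∈ U, γ = res K β} ∪
      {γ | ∃ x ∈ G, ∃ y ∈ G, IsSym n (algebraMap F K ζ) x y γ})) :
    IndDvd α (n ^ r * N) := by
  subst hG
  refine final hn hζ U H hneg (fun a ha b hb => hHU a ha b hb _ ((isSym_iff hn hζ a b _).2 rfl)) N hN hU r e f ?_ α ?_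
  · intro i
    rcases hef i with ⟨a, ha, b, hb, β, hβ, c, c₁, c₂, h, h₁, h₂, h₃⟩ | h
    · left
      refine ⟨a, ha, b, hb, β, hβ, ?_⟩
      rw [isSym_iff hn (rootK K hζ)] at h h₁ h₂
      rw [h, h₁, h₂] at h₃
      exact h₃
    · exact Or.inr h
  · convert hα using 3
    ext γ
    constructor
    · rintro ⟨x, hx, y, hy, h⟩
      exact ⟨x, hx, y, hy, (isSym_iff hn (rootK K hζ) x y γ).2 h⟩
    · rintro ⟨x, hx, y, hy, h⟩
      exact ⟨x, hx, y, hy, (isSym_iff hn (rootK K hζ) x y γ).1 h⟩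

end Pool.Agent.Results.MP_43d240_ag.RelativeBound
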